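import Mathlib
import Pool.Agent.H251R5.PQ.Fin

/-!
# If `FP_||^NP = FP^NP[log]` then `P = NP`

Polynomial time is Mathlib's `Turing.TM2ComputableInPolyTime`, for functions on bit strings.

* `InFPpar f`: `f` is computable in polynomial time with parallel (non-adaptive) queries to an `NP`
  oracle: `f x = g (x, answers to the list Q x)` with `Q`, `g` computable in polynomial time.
* `InFPlog f`: `f` is computable in polynomial time with `O(log n)` adaptive queries to an `NP`
  oracle: the next query is computed in polynomial time from the input and the answers obtained so
  far, and the value from the input and all `c * (log n + 1)` answers.
* `H2`: these two classes of functions coincide.

The theorem: `H2` implies `P = NP`.

Proof.  Under `H2` the answers to polynomially many `NP` queries asked in parallel are contained in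
a list of polynomially many vectors which can be computed in polynomial time (try all answers to
the logarithmically many adaptive queries).  Let `B` be the set of the witnesses of an input,
strings of length `n`; a string is regarded as a polynomial of degree less than `n` over the field
with `p` elements, `p` a prime of polynomial size.  A point is a pair (position `a`, value `y`),
and a string passes through it if its polynomial has the value `y` at `a`.  The algorithm builds
blocks of points, different blocks at different positions, such that some witness passes through
a point of every block (if there is a witness at all).  Such witnesses are called surviving.

In one level, ask in parallel for all points `(a, y)` whether some surviving witness passes
through it, and the same with bit number `b` equal to one.  Try to read off a witness from every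
candidate vector and every point: this works for the true vector if there are few surviving
witnesses, since then one of them is isolated at some position.  If the true vector contains less
than the fraction `1 / (32 n)` of the points at unused positions, then at many positions few values
occur, hence by a bound of Johnson type there are few surviving witnesses, and one is found.
Otherwise the true vector is one of the candidates which contain at least this fraction of the
points.  Choose greedily `O(n log n)` points meeting all these candidates simultaneously; they
form the new block, and since the true vector is met, some surviving witness passes through it.

After `n ^ 3` or so levels every string passing through all blocks passes through so many
points at different positions that, by the same bound of Johnson type, there are only polynomially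
many such strings, so a surviving witness is found.
-/

set_option autoImplicit false

namespace Pool.Agent.Results.MP_8f56c4_lc.ParallelQueriesCollapse

open Pool.Agent.NPC Pool.Agent.H251R5.PQ

/-- If `FP_||^NP = FP^NP[log]` then `P = NP`. -/
theorem result : H2 → ∀ L : Set (List Bool), InNP L → InP L := main

end Pool.Agent.Results.MP_8f56c4_lc.ParallelQueriesCollapse
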